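import Mathlib
import Pool.Agent.X184.RM.G

/-!
# A regular `N`-gon can be enlarged by at most `N ^ 3` reflection moves

`N` pieces stand on the vertices of a regular `N`-gon; in a legal move one piece is reflected in another
one. Let `m(N)` be the least number of moves that lead to the vertices of a larger regular `N`-gon.
We prove `m(N) ≤ N ^ 3` for all `N > 6`.

Method. *Odd `N = 2 n + 1`.* Let `ζ = exp (2 π i / N)`, `x = ζ + ζ⁻¹ = 2 cos (2 π / N)` and
`u = 1 + 2 / x`, a unit congruent to `1` modulo `2`, with `u > 1`. Visit the vertices along the zigzag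
path `1, ζ, ζ⁻¹, ζ², ζ⁻², …`. Translating an initial or a final segment of the path by twice the
difference of two consecutive vertices outside this segment takes two moves for each piece; so it is
possible to add `± 2` times a difference of consecutive vertices to another one, keeping all the rest, by
at most `2 N` moves. The differences form two families which are, up to constants, the numbers
`g_m = ζ ^ m - ζ ^ (-m)`, `1 ≤ m ≤ n`, and `x g_m = g_{m-1} + g_{m+1}`, `g_{n+1} = - g_n`. Multiplication by `u` on
these numbers is the product of an upper and a lower triangular matrix, congruent to the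
identity modulo `2`, whose entries are `0`, `± 1`, `± 2`. So `n ^ 2` operations suffice for each family.
*Even `N`.* Consider the pairs of opposite pieces `± x_j`. Two moves replace `x_j` by `x_j ± 2 x_k`. For
`N = 2 (2 n + 1)` the partial sums of the `x_j` along the zigzag path play the role of the differences. If `N` has
an odd divisor `d ≥ 5`, the `N`-gon is a union of concentric `2 d`-gons; otherwise it is a union of
concentric 8-gons or of concentric 12-gons, for which there are short explicit sequences.
-/

set_option autoImplicit false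

namespace Pool.Agent.Results.MP_e50cbd_co.CubicBound

/-- A legal move: a piece `i` is replaced by its point reflection in a different piece `j`. -/
def LegalMove {N : ℕ} (p q : Fin N → ℂ) : Prop :=
  ∃ i j : Fin N, i ≠ j ∧ q i = 2 * p j - p i ∧ ∀ l : Fin N, l ≠ i → q l = p l

/-- `Moves k p q`: the configuration `q` arises from `p` by a sequence of `k` legal moves. -/
inductive Moves {N : ℕ} : ℕ → (Fin N → ℂ) → (Fin N → ℂ) → Prop
  | zero (p : Fin N → ℂ) : Moves 0 p p
  | succ {k : ℕ} {p q r : Fin N → ℂ} : Moves k p q → LegalMove q r → Moves (k + 1) p r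

/-- The `N` pieces on the vertices of the regular `N`-gon inscribed in the unit circle. -/
noncomputable def regularPolygon (N : ℕ) (j : Fin N) : ℂ :=
  Complex.exp (2 * Real.pi * Complex.I * (j.val : ℂ) / N)

/-- `q` is similar to `p` and larger: a similarity of ratio `r > 1` maps the set of positions of
`p` onto that of `q`. -/
def IsLarger {N : ℕ} (p q : Fin N → ℂ) : Prop :=
  ∃ (r : ℝ) (f : ℂ → ℂ), 1 < r ∧ (∀ x y : ℂ, dist (f x) (f y) = r * dist x y) ∧
    f '' Set.range p = Set.range q

/-- `m(N)`: the least number of legal moves that turn the regular `N`-gon into a larger one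
(`⊤` if this is impossible). -/
noncomputable def m (N : ℕ) : ℕ∞ :=
  sInf {t : ℕ∞ | ∃ k : ℕ, t = k ∧ ∃ q : Fin N → ℂ,
    Moves k (regularPolygon N) q ∧ IsLarger (regularPolygon N) q}

theorem moves_of_chain {N k : ℕ} {p q : Fin N → ℂ}
    (h : Pool.Agent.X184.RM.Chain Pool.Agent.X184.RM.Move k p q) :
    ∃ k' ≤ k, Moves k' p q := by
  induction h with
  | refl k a => exact ⟨0, Nat.zero_le k, Moves.zero a⟩
  | @step k a b c h hs ih =>
    obtain ⟨k', hk', hm⟩ := ih
    refine ⟨k' + 1, by omega, Moves.succ hm ?_⟩
    cases hs with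
    | jump i j hij =>
      exact ⟨i, j, hij, by rw [Function.update_self], fun l hl => by rw [Function.update_of_ne hl]⟩

theorem exists_moves (N : ℕ) (hN : 6 < N) :
    ∃ k ≤ N ^ 3, ∃ q : Fin N → ℂ, Moves k (regularPolygon N) q ∧ IsLarger (regularPolygon N) q := by
  obtain ⟨k, hk, q, hq, c, u, hu, hr⟩ := Pool.Agent.X184.RM.good_all N hN
  obtain ⟨k', hk', hm⟩ := moves_of_chain hq
  refine ⟨k', hk'.trans hk, q, hm, ‖u‖, fun v => c + u * v, hu, ?_, hr.symm⟩
  intro x y
  rw [dist_eq_norm, dist_eq_norm, ← norm_mul]
  congr 1
  ring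

/-- For every `N > 6`, the pieces on the vertices of a regular `N`-gon can be moved onto the
vertices of a larger regular `N`-gon by at most `N ^ 3` legal moves. -/
theorem result (N : ℕ) (hN : 6 < N) :
    m N ≤ (N : ℕ∞) ^ 3 ∧
    ∃ k ≤ N ^ 3, ∃ q : Fin N → ℂ, Moves k (regularPolygon N) q ∧ IsLarger (regularPolygon N) q := by
  refine ⟨?_, exists_moves N hN⟩
  obtain ⟨k, hk, q, h1, h2⟩ := exists_moves N hN
  have hmem : (k : ℕ∞) ∈ {t : ℕ∞ | ∃ k : ℕ, t = k ∧ ∃ q : Fin N → ℂ,
      Moves k (regularPolygon N) q ∧ IsLarger (regularPolygon N) q} := ⟨k, rfl, q, h1, h2⟩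
  refine (sInf_le hmem).trans ?_
  exact_mod_cast hk

end Pool.Agent.Results.MP_e50cbd_co.CubicBound
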